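import Pool.Agent.Helper6.LPA.St

/-! # Project LPA: module DIA (the diagonal) -/

set_option autoImplicit false

namespace Pool.Agent.Helper36.LPA

open Finset
open Pool.Agent.Helper98.LM (QQ)
open Pool.Agent.Helper6.LP Pool.Agent.Helper6.LPA

private theorem dv_union {T T' : Finset ℕ} {n y : ℤ} (h : Dv T n y) (h' : Dv T' n y) :
    Dv (T ∪ T') n y := by
  intro l hl
  rcases Finset.mem_union.1 hl with k | k
  · exact h l k
  · exact h' l k

open Classical in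
private theorem term (T T' : Finset ℕ) (n y : ℤ) :
    ((-1 : ℝ) ^ T.card * (if Dv T n y then 1 else 0)) *
      ((-1 : ℝ) ^ T'.card * (if Dv T' n y then 1 else 0)) ≤
      if Dv (T ∪ T') n y then (1 : ℝ) else 0 := by
  by_cases h : Dv T n y
  · by_cases h' : Dv T' n y
    · rw [if_pos h, if_pos h', if_pos (dv_union h h')]
      rcases neg_one_pow_eq_or ℝ T.card with e | e <;>
        rcases neg_one_pow_eq_or ℝ T'.card with e' | e' <;> rw [e, e'] <;> norm_num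
    · rw [if_neg h', mul_zero, mul_zero]
      split_ifs <;> norm_num
  · rw [if_neg h, mul_zero, zero_mul]
    split_ifs <;> norm_num

open Classical in
private theorem sq_le (F : Finset (Finset ℕ)) (n y : ℤ) :
    WS F n y ^ 2 ≤ ∑ T ∈ F, ∑ T' ∈ F, (if Dv (T ∪ T') n y then (1 : ℝ) else 0) := by
  unfold WS
  rw [sq, Finset.sum_mul_sum]
  exact Finset.sum_le_sum fun T _ => Finset.sum_le_sum fun T' _ => term T T' n y

private theorem prod_union_le (T T' : Finset ℕ) (h : ∀ l ∈ T ∪ T', 1 ≤ l) :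
    ∏ l ∈ T ∪ T', l ≤ (∏ l ∈ T, l) * ∏ l ∈ T', l := by
  have e := Finset.prod_union_inter (s₁ := T) (s₂ := T') (f := fun l : ℕ => l)
  have h1 : 1 ≤ ∏ l ∈ T ∩ T', l := by
    refine Finset.one_le_prod' fun l hl => h l ?_
    exact Finset.mem_union_left _ (Finset.mem_inter.1 hl).1
  calc ∏ l ∈ T ∪ T', l ≤ (∏ l ∈ T ∪ T', l) * ∏ l ∈ T ∩ T', l := Nat.le_mul_of_pos_right _ h1
    _ = _ := e

open Classical in
/-- MODULE DIA. -/
theorem hDIA (hO : StONQ) (hG : StGGL) : StDIA := by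
  obtain ⟨C, hC, hg⟩ := hG
  refine ⟨2 * C, by linarith, ?_⟩
  intro η B B₁ hη hη1 hB hSv p P a y M z w F hp hpz hzw hwz hl hy hF
  have hz1 : 1 ≤ z := by omega
  have hzw' : z ≤ w := (Nat.le_self_pow (by omega) z).trans hzw
  obtain ⟨g1, -⟩ := hg p P a z w B B₁ F hp hpz hzw' hB hwz hl hF
  obtain ⟨hVV, -, -, -, -, hgg⟩ := g1 y hy
  have hB1 : (1 : ℝ) ≤ B := by exact_mod_cast hB
  have hw1 : (1 : ℝ) ≤ w := by exact_mod_cast (show 1 ≤ w by omega)
  have hM0 : (0 : ℝ) ≤ M := Nat.cast_nonneg M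
  have hcard : (F.card : ℝ) ≤ (w : ℝ) ^ B₁ := by exact_mod_cast hF.2.1
  have hratio : η / (B : ℝ) ^ 12 ≤ 1 := by
    rw [div_le_one (by positivity)]
    exact hη1.trans (one_le_pow₀ hB1)
  have hpr : ∀ l ∈ QQ z w, 1 ≤ l := by
    intro l hl
    have := (Finset.mem_filter.1 hl).2
    have h2 := this.one_le
    exact h2
  have hcount : ∀ T ∈ F, ∀ T' ∈ F,
      ∑ m ∈ (Icc 1 M).filter (fun m : ℕ => Sf p z ((a : ℤ) + P * m) y),
        (if Dv (T ∪ T') ((a : ℤ) + P * m) y then (1 : ℝ) else 0) ≤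
      2 * (M * VV p z P a y) * gg P a y (T ∪ T') + (w : ℝ) ^ (2 * B₁ + 1) := by
    intro T hT T' hT'
    have hsub : T ∪ T' ⊆ QQ z w := Finset.union_subset (hF.1 T hT).1 (hF.1 T' hT').1
    have h1 := hO η 12 B hSv p P a y z w M (T ∪ T') hsub hp hpz hl hy
    have h2 := (abs_le.1 h1).2
    have e : ∑ m ∈ (Icc 1 M).filter (fun m : ℕ => Sf p z ((a : ℤ) + P * m) y),
        (if Dv (T ∪ T') ((a : ℤ) + P * m) y then (1 : ℝ) else 0) =
        (((Icc 1 M).filter (fun m : ℕ => Sf p z ((a : ℤ) + P * m) y ∧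
          Dv (T ∪ T') ((a : ℤ) + P * m) y)).card : ℝ) := by
      rw [Finset.sum_boole, Finset.filter_filter]
    rw [e]
    have hg0 : 0 ≤ gg P a y (T ∪ T') := by
      unfold gg
      exact Finset.prod_nonneg fun l _ => by positivity
    have hprod : ((∏ l ∈ T ∪ T', l : ℕ) : ℝ) ≤ (w : ℝ) ^ B₁ * (w : ℝ) ^ B₁ := by
      have h3 := prod_union_le T T' fun l hl => hpr l (hsub hl)
      have h4 := Nat.mul_le_mul (hF.1 T hT).2 (hF.1 T' hT').2
      exact_mod_cast h3.trans h4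
    have hzB : (z : ℝ) ^ B ≤ w := by exact_mod_cast hzw
    have herr : (z : ℝ) ^ B * ∏ l ∈ T ∪ T', (l : ℝ) ≤ (w : ℝ) ^ (2 * B₁ + 1) := by
      have e2 : (w : ℝ) ^ (2 * B₁ + 1) = w * ((w : ℝ) ^ B₁ * (w : ℝ) ^ B₁) := by ring
      rw [e2]
      push_cast at hprod
      exact mul_le_mul hzB hprod (Finset.prod_nonneg fun l _ => Nat.cast_nonneg l) (by linarith)
    have hX : 0 ≤ M * (VV p z P a y * gg P a y (T ∪ T')) :=
      mul_nonneg hM0 (mul_nonneg hVV.le hg0)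
    have h5 := mul_le_mul_of_nonneg_right hratio hX
    nlinarith
  calc ∑ m ∈ (Icc 1 M).filter (fun m : ℕ => Sf p z ((a : ℤ) + P * m) y), WS F ((a : ℤ) + P * m) y ^ 2
      ≤ ∑ m ∈ (Icc 1 M).filter (fun m : ℕ => Sf p z ((a : ℤ) + P * m) y), ∑ T ∈ F, ∑ T' ∈ F,
          (if Dv (T ∪ T') ((a : ℤ) + P * m) y then (1 : ℝ) else 0) :=
        Finset.sum_le_sum fun m _ => sq_le F _ _
    _ = ∑ T ∈ F, ∑ T' ∈ F, ∑ m ∈ (Icc 1 M).filter (fun m : ℕ => Sf p z ((a : ℤ) + P * m) y),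
          (if Dv (T ∪ T') ((a : ℤ) + P * m) y then (1 : ℝ) else 0) := by
        rw [Finset.sum_comm]
        exact Finset.sum_congr rfl fun T _ => Finset.sum_comm
    _ ≤ ∑ T ∈ F, ∑ T' ∈ F, (2 * (M * VV p z P a y) * gg P a y (T ∪ T') + (w : ℝ) ^ (2 * B₁ + 1)) :=
        Finset.sum_le_sum fun T hT => Finset.sum_le_sum fun T' hT' => hcount T hT T' hT'
    _ = 2 * (M * VV p z P a y) * (∑ T ∈ F, ∑ T' ∈ F, gg P a y (T ∪ T')) +
          (F.card : ℝ) * (F.card * (w : ℝ) ^ (2 * B₁ + 1)) := by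
        simp only [Finset.sum_add_distrib, Finset.sum_const, nsmul_eq_mul, Finset.mul_sum]
    _ ≤ 2 * (M * VV p z P a y) * (C * (B : ℝ) ^ 12) +
          (w : ℝ) ^ B₁ * ((w : ℝ) ^ B₁ * (w : ℝ) ^ (2 * B₁ + 1)) := by
        refine add_le_add (mul_le_mul_of_nonneg_left hgg ?_) ?_
        · exact mul_nonneg (by norm_num) (mul_nonneg hM0 hVV.le)
        · have hw0 : (0 : ℝ) ≤ (w : ℝ) ^ (2 * B₁ + 1) := by positivity
          refine mul_le_mul hcard (mul_le_mul_of_nonneg_right hcard hw0) ?_ (by positivity)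
          positivity
    _ = 2 * C * (B : ℝ) ^ 12 * (M * VV p z P a y) + (w : ℝ) ^ (4 * B₁ + 1) := by
        have e : (w : ℝ) ^ (4 * B₁ + 1) = (w : ℝ) ^ B₁ * ((w : ℝ) ^ B₁ * (w : ℝ) ^ (2 * B₁ + 1)) := by
          rw [← pow_add, ← pow_add]
          congr 1
          ring
        rw [e]
        ring

end Pool.Agent.Helper36.LPA
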